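import Pool.Agent.PD71.AltQ

/-!
# Orbits of points with nontrivial stabilizer in projective piles: alternating quotients

Let `(G, T)` be a projective pile with `G` topologically generated by `d` elements. If `T'/G` is
infinite, then for every `N` there is an `n ≥ N` such that the alternating group of degree `n` is a
continuous quotient of `G`. So `T'/G` is finite if only finitely many alternating groups are
continuous quotients of `G`, for example if `G` is prosoluble.

Proof: the stabilizers have finite simple quotients whose proper subgroups have larger and larger
indices. Take `S1` with a maximal subgroup of index `k` and `S2` with a maximal subgroup of a much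
larger index `n`, let `S2` act on its `n` cosets and `S1` on `k` of these `n` points. By
projectivity both actions extend, up to conjugation, to one homomorphism of `G` into the
alternating group of degree `n`. By Jordan's theorem its image is `(n - k + 1)`-transitive, so it
has index at most `(k - 1)!` in the symmetric group and is the alternating group.
-/

set_option autoImplicit false

universe u v

namespace Pool.Agent.Results.MP_d84dbd_al.AlternatingQuotients

open Pool.Agent.H82.PL Pool.Agent.PD71

theorem result {G : Type u} {T : Type v} [Group G] [TopologicalSpace G] [IsTopologicalGroup G]
    [CompactSpace G] [T2Space G] [TotallyDisconnectedSpace G]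
    [TopologicalSpace T] [CompactSpace T] [T2Space T] [TotallyDisconnectedSpace T]
    (P : Pile G T) (hP : P.Projective) (d : ℕ) (s : Fin d → G)
    (hs : (Subgroup.closure (Set.range s)).topologicalClosure = ⊤)
    (hinf : P.nontrivOrbits.Infinite) (N : ℕ) :
    ∃ n, N ≤ n ∧ ∃ ψ : G →* alternatingGroup (Fin n), Function.Surjective ψ ∧
      IsOpen (ψ.ker : Set G) :=
  exists_alt P hP s hs hinf N

end Pool.Agent.Results.MP_d84dbd_al.AlternatingQuotients
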