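import Pool.Agent.H82.Pile.Final

/-!
# Orbits of points with nontrivial stabilizer in projective piles: the bounded index criterion

Let `(G, T)` be a projective pile, `G` topologically generated by `d` elements. For every `n` the
points of `T` whose stabilizer has a proper open subgroup of index at most `n` form at most
`d * log_2 (n!)` orbits. So `T'/G` is finite if and only if there is an `n` such that every
nontrivial stabilizer has a proper open subgroup of index at most `n`.

Proof: by projectivity, homomorphisms of the stabilizers of finitely many points in distinct
orbits into a finite group `E` extend, up to conjugation in `E`, to one homomorphism of `G`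
(`Pool.Agent.H82.PL.core`: an embedding problem with kernel `E`); count homomorphisms `G → E` for
`E = Sym(n)`.
-/

set_option autoImplicit false

universe u v

namespace Pool.Agent.Results.MP_d84dbd_al.BoundedIndexCriterion

open Pool.Agent.H82.PL

theorem result {G : Type u} {T : Type v} [Group G] [TopologicalSpace G] [IsTopologicalGroup G]
    [CompactSpace G] [TotallyDisconnectedSpace G] [T2Space G]
    [TopologicalSpace T] [CompactSpace T] [T2Space T] [TotallyDisconnectedSpace T]
    (P : Pile G T) (hP : P.Projective) (d : ℕ) (s : Fin d → G)
    (hs : (Subgroup.closure (Set.range s)).topologicalClosure = ⊤) :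
    (∀ n : ℕ, (P.smallOrbits n).Finite ∧ 2 ^ (P.smallOrbits n).ncard ≤ n.factorial ^ d) ∧
      (P.nontrivOrbits.Finite ↔ ∃ n : ℕ, ∀ t, P.stab t ≠ ⊥ → P.SmallIndex n t) :=
  bounded_index_criterion P hP d s hs

end Pool.Agent.Results.MP_d84dbd_al.BoundedIndexCriterion
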