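import Pool.Agent.PD71.Main

/-!
# Orbits of points with nontrivial stabilizer in projective piles: reduction to finite groups

For every `d` the following are equivalent.

* There is a projective pile `(G, T)`, with `G` topologically generated by `d` elements, for which
  `T'/G` is infinite (`Fails d`).
* The same, and every nontrivial stabilizer is a finite simple group (`SimpleFails d`).
* There are finite simple groups `S 0, S 1, …` such that every finite group `X` with homomorphisms
  `f i : S i → X`, almost all of them trivial, has a subgroup generated by `d` elements which
  contains for every `i` a conjugate of the image of `f i` (`SimpleTest d`).

Proof of the last implication: let `P` be the closed subgroup generated by the `S i` in the product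
of all finite symmetric groups marked by homomorphisms of the `S i`, almost all of them trivial, and
let `G ≤ P` be minimal among the closed subgroups which contain a conjugate of every `S i`. By
minimality and by the test every finite quotient of `G` is generated by `d` elements. Reindexing the
coordinates of the product gives an endomorphism of `G`, which is surjective by minimality and
bijective because finitely generated profinite groups are Hopfian; this gives the lifting property
of `G`. The space is the quotient of `G × (ω + 1)` by the `S i`.
-/

set_option autoImplicit false

universe u v

namespace Pool.Agent.Results.MP_d84dbd_al.FiniteReduction

open Pool.Agent.PD71

theorem result (d : ℕ) :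
    List.TFAE [Fails.{0, 0} d, SimpleFails d, SimpleTest d] ∧
      (Fails.{u, v} d → SimpleTest d) := by
  refine ⟨?_, fails_simpleTest⟩
  tfae_have 1 → 3 := fails_simpleTest
  tfae_have 3 → 2 := simpleTest_simpleFails
  tfae_have 2 → 1 := simpleFails_fails
  tfae_finish

end Pool.Agent.Results.MP_d84dbd_al.FiniteReduction
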