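import Pool.Agent.PD71.Main

/-!
# The families of stabilizers of projective piles with `d`-generated groups

For a family `S i` of profinite groups and for `d` the following are equivalent.

* There is a projective pile `(G, T)`, with `G` topologically generated by `d` elements, with points
  `t i` in pairwise distinct orbits whose stabilizers map continuously onto the `S i`.
* There is such a pile in which the stabilizer of `t i` is isomorphic to `S i` and all points outside
  the orbits of the `t i` have trivial stabilizers.
* Every finite group `X` with continuous homomorphisms `f i : S i → X`, almost all of them trivial,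
  has a subgroup generated by `d` elements which contains for every `i` a conjugate of the image
  of `f i`.
-/

set_option autoImplicit false

universe u v

namespace Pool.Agent.Results.MP_d84dbd_al.StabilizerFamilies

open Pool.Agent.PD71

theorem result {ι : Type} (S : ι → Type) [∀ i, Group (S i)] [∀ i, TopologicalSpace (S i)]
    [∀ i, IsTopologicalGroup (S i)] [∀ i, CompactSpace (S i)] [∀ i, T2Space (S i)]
    [∀ i, TotallyDisconnectedSpace (S i)] (d : ℕ) :
    List.TFAE [WeaklyRealized.{0, 0} S d, Realized S d, Test S d] ∧
      (WeaklyRealized.{u, v} S d → Test S d) := by
  refine ⟨?_, test_of_weaklyRealized⟩
  tfae_have 1 → 3 := test_of_weaklyRealized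
  tfae_have 3 → 2 := realize
  tfae_have 2 → 1 := weaklyRealized_of_realized
  tfae_finish

end Pool.Agent.Results.MP_d84dbd_al.StabilizerFamilies
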